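import Mathlib

namespace Pool.Agent.H.MP_25eb51_an

open Polynomial Set Filter Topology

noncomputable def pl {M : ℕ} (a : Fin M → ℝ) : ℝ[X] := ∑ j, C (a j) * X ^ (j : ℕ)

lemma der {M : ℕ} (p : ℝ[X]) (b : Fin M → ℝ[X]) (v : Fin M → ℝ) (i : Fin M) :
    ∃ L : ((Fin M → ℝ) × (Fin M → ℝ)) →L[ℝ] ℝ,
      HasStrictFDerivAt (fun q : (Fin M → ℝ) × (Fin M → ℝ) =>
        p.eval (q.2 i) + ∑ j, q.1 j * (b j).eval (q.2 i)) L (0, v) ∧
      ∀ q, L q = p.derivative.eval (v i) * q.2 i + ∑ j, q.1 j * (b j).eval (v i) := by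
  let s : ((Fin M → ℝ) × (Fin M → ℝ)) →L[ℝ] ℝ :=
    (ContinuousLinearMap.proj i).comp (ContinuousLinearMap.snd ℝ _ _)
  let f : Fin M → ((Fin M → ℝ) × (Fin M → ℝ)) →L[ℝ] ℝ := fun j =>
    (ContinuousLinearMap.proj j).comp (ContinuousLinearMap.fst ℝ _ _)
  have h : ∀ r : ℝ[X], HasStrictFDerivAt (fun q : (Fin M → ℝ) × (Fin M → ℝ) => r.eval (q.2 i))
      (r.derivative.eval (v i) • s) (0, v) := fun r =>
    HasStrictDerivAt.comp_hasStrictFDerivAt (h₂ := fun x => r.eval x) (f := s) (0, v)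
      (r.hasStrictDerivAt (v i)) s.hasStrictFDerivAt
  refine ⟨_, (h p).fun_add (HasStrictFDerivAt.fun_sum fun j _ =>
    (f j).hasStrictFDerivAt.fun_mul (h (b j))), fun q => ?_⟩
  simp [s, f, mul_comm]

lemma pert {M : ℕ} (P : ℝ[X]) {v : Fin M → ℝ} (hv : Function.Injective v)
    (h1 : ∀ i, P.derivative.eval (v i) = 0) (h2 : ∀ i, P.derivative.derivative.eval (v i) ≠ 0)
    (w : Fin M → ℝ) {S : (Fin M → ℝ) × (Fin M → ℝ) → Prop} (hS : ∀ᶠ q in 𝓝 (0, v), S q) :
    ∃ ε > 0, ∃ q, S q ∧ ∀ i, (P + pl q.1).derivative.eval (q.2 i) = 0 ∧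
      (P + pl q.1).eval (q.2 i) = P.eval (v i) + ε * w i := by
  choose L1 a1 b1 using der P.derivative (fun j : Fin M => derivative (X ^ (j : ℕ))) v
  choose L2 a2 b2 using der P (fun j : Fin M => X ^ (j : ℕ)) v
  have hd := (hasStrictFDerivAt_pi.2 a1).prodMk (hasStrictFDerivAt_pi.2 a2)
  have sj : ((ContinuousLinearMap.pi L1).prod (ContinuousLinearMap.pi L2)).range = ⊤ := by
    refine LinearMap.range_eq_top.2 fun t => ?_
    obtain ⟨a, ha⟩ := Matrix.mulVec_surjective_iff_isUnit.2 ((Matrix.isUnit_iff_isUnit_det _).2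
      (Matrix.det_vandermonde_ne_zero_iff.2 hv).isUnit) t.2
    refine ⟨(a, fun i => (t.1 i - ∑ j, a j * (derivative (X ^ (j : ℕ))).eval (v i)) /
      P.derivative.derivative.eval (v i)), ?_⟩
    ext i
    · have := h2 i
      simp only [ContinuousLinearMap.coe_coe, ContinuousLinearMap.prod_apply,
        ContinuousLinearMap.pi_apply, b1]
      field_simp; ring
    · simp only [ContinuousLinearMap.coe_coe, ContinuousLinearMap.prod_apply,
        ContinuousLinearMap.pi_apply, b2, h1, ← ha]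
      simp [Matrix.mulVec, dotProduct, mul_comm]
  have m := hd.map_nhds_eq_of_surj sj
  have ev := image_mem_map (m := fun x : (Fin M → ℝ) × (Fin M → ℝ) =>
    ((fun i => P.derivative.eval (x.2 i) + ∑ j, x.1 j * (derivative (X ^ (j : ℕ))).eval (x.2 i)),
      fun i => P.eval (x.2 i) + ∑ j, x.1 j * (X ^ (j : ℕ)).eval (x.2 i))) hS
  rw [m] at ev
  have c : Tendsto (fun ε : ℝ => ((0 : Fin M → ℝ), fun i => P.eval (v i) + ε * w i)) (𝓝[>] 0)
      (𝓝 (0, fun i => P.eval (v i) + 0 * w i)) :=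
    (Continuous.tendsto (by fun_prop) 0).mono_left nhdsWithin_le_nhds
  simp only [h1, Pi.zero_apply, zero_mul, Finset.sum_const_zero, add_zero] at ev c
  obtain ⟨ε, ⟨q, hq, e⟩, h0⟩ := ((c.eventually ev).and self_mem_nhdsWithin).exists
  refine ⟨ε, h0, q, hq, fun i => ⟨?_, ?_⟩⟩
  · have := congrFun (congrArg Prod.fst e) i
    simpa [pl, eval_finsetSum] using this
  · have := congrFun (congrArg Prod.snd e) i
    simpa [pl, eval_finsetSum] using this

lemma lt_of_succ {e : ℕ → ℝ} {N : ℕ} (h : ∀ i < N, e i < e (i + 1)) {i j : ℕ} (hij : i < j)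
    (hj : j ≤ N) : e i < e j := by
  induction j with
  | zero => omega
  | succ j ih =>
    rcases Nat.lt_succ_iff_lt_or_eq.1 hij with k | rfl
    · exact (ih k (by omega)).trans (h j (by omega))
    · exact h _ (by omega)

lemma le_of_succ {e : ℕ → ℝ} {N : ℕ} (h : ∀ i < N, e i < e (i + 1)) {i j : ℕ} (hij : i ≤ j)
    (hj : j ≤ N) : e i ≤ e j :=
  hij.eq_or_lt.elim (fun k => k ▸ le_rfl) fun k => (lt_of_succ h k hj).le

lemma all_roots {p : ℝ[X]} (hp : p ≠ 0) {s : Finset ℕ} {v : ℕ → ℝ} (hv : InjOn v s)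
    (h : ∀ i ∈ s, p.eval (v i) = 0) (hd : p.natDegree ≤ s.card) {y : ℝ} (hy : p.eval y = 0) :
    ∃ i ∈ s, v i = y := by
  by_contra k
  have k' : y ∉ s.image v := fun a => k (by simpa using a)
  refine hp (eq_zero_of_natDegree_lt_card_of_eval_eq_zero' p (insert y (s.image v)) (by
    simpa [hy] using h) ?_)
  rw [Finset.card_insert_of_notMem k', Finset.card_image_of_injOn hv]; omega

lemma simple {p : ℝ[X]} (hp : p ≠ 0) {M : ℕ} {v : Fin M → ℝ} (hv : Function.Injective v)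
    (h : ∀ i, p.eval (v i) = 0) (hd : p.natDegree ≤ M) (i : Fin M) :
    p.derivative.eval (v i) ≠ 0 := by
  intro k
  obtain ⟨q, rfl⟩ := dvd_iff_isRoot.2 (h i)
  have q0 : q ≠ 0 := by rintro rfl; simp at hp
  rw [natDegree_mul (X_sub_C_ne_zero _) q0, natDegree_X_sub_C] at hd
  refine q0 (eq_zero_of_natDegree_lt_card_of_eval_eq_zero q hv (fun j => ?_) (by simp; omega))
  by_cases e : j = i
  · subst e; simpa using k
  · have := h j
    simp only [eval_mul, eval_sub, eval_X, eval_C, mul_eq_zero, sub_eq_zero] at this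
    exact this.resolve_left fun a => e (hv a)

def V (n i : ℕ) : Prop := ∃ j ≤ n, i + 2 ^ (n - j) = 2 ^ n

structure St (n : ℕ) (T : ℝ[X]) (e c : ℕ → ℝ) : Prop where
  mon : T.Monic
  deg : T.natDegree = 2 ^ n
  inc : ∀ i < 2 ^ n, e i < e (i + 1)
  lo : e 0 = -3
  hi : e (2 ^ n) = 3
  crit : ∀ i, 0 < i → i < 2 ^ n → T.derivative.eval (e i) = 0
  alt : ∀ i ≤ 2 ^ n, 2 ≤ (-1) ^ (2 ^ n + i) * T.eval (e i)
  eq : ∀ i, 0 < i → i < 2 ^ n → |T.eval (e i)| = 2 ∨ V n i
  l3 : 2 < |T.eval (-3)|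
  r3 : 2 < |T.eval 3|
  pos : ∀ j, 0 < j → j ≤ n → e (2 ^ n - 2 ^ (n - j) - 1) < c j ∧ c j < e (2 ^ n - 2 ^ (n - j) + 1) ∧
    2 < (-1) ^ (2 ^ n + (2 ^ n - 2 ^ (n - j))) * T.eval (c j)

variable {n : ℕ} {T : ℝ[X]} {e c : ℕ → ℝ}

lemma St.roots (H : St n T e c) {s : ℝ} (hs : |s| < 2) : ∃ x : ℕ → ℝ,
    (∀ k < 2 ^ n, e k < x k ∧ x k < e (k + 1)) ∧
      T - C s = ∏ k ∈ Finset.range (2 ^ n), (X - C (x k)) := by
  obtain ⟨s1, s2⟩ := abs_lt.1 hs
  have ex : ∀ k, ∃ y, k < 2 ^ n → (e k < y ∧ y < e (k + 1)) ∧ T.eval y = s := by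
    intro k
    by_cases hk : k < 2 ^ n
    · have a := H.alt k hk.le
      have b := H.alt (k + 1) hk
      rw [← add_assoc, pow_succ] at b
      rcases neg_one_pow_eq_or ℝ (2 ^ n + k) with h | h <;> rw [h] at a b
      · obtain ⟨y, hy, e⟩ := intermediate_value_Ioo' (H.inc k hk).le T.continuous.continuousOn
          (show s ∈ _ from ⟨by linarith, by linarith⟩)
        exact ⟨y, fun _ => ⟨hy, e⟩⟩
      · obtain ⟨y, hy, e⟩ := intermediate_value_Ioo (H.inc k hk).le T.continuous.continuousOn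
          (show s ∈ _ from ⟨by linarith, by linarith⟩)
        exact ⟨y, fun _ => ⟨hy, e⟩⟩
    · exact ⟨0, fun h => absurd h hk⟩
  choose x hx using ex
  refine ⟨x, fun k hk => (hx k hk).1, ?_⟩
  have lt : ∀ i j, i < j → j < 2 ^ n → x i < x j := fun i j hij hj =>
    ((hx i (by omega)).1.2.trans_le (le_of_succ H.inc hij hj.le)).trans (hx j hj).1.1
  have inj : InjOn x (Finset.range (2 ^ n)) := fun i hi j hj h => by
    simp only [Finset.coe_range, mem_Iio] at hi hj
    rcases lt_trichotomy i j with k | k | k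
    · exact absurd h (lt i j k hj).ne
    · exact k
    · exact absurd h (lt j i k hi).ne'
  have p : 0 < 2 ^ n := by positivity
  have d1 : (T - C s).natDegree = 2 ^ n := by rw [natDegree_sub_C, H.deg]
  have m1 : (T - C s).Monic := H.mon.sub_of_left (degree_C_le.trans_lt (by
    rw [degree_eq_natDegree H.mon.ne_zero, H.deg]; exact_mod_cast p))
  have m2 := monic_prod_of_monic (Finset.range (2 ^ n)) (fun k => X - C (x k))
    fun _ _ => monic_X_sub_C _
  have d2 : (∏ k ∈ Finset.range (2 ^ n), (X - C (x k))).natDegree = 2 ^ n := by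
    rw [natDegree_prod_of_monic _ _ fun _ _ => monic_X_sub_C _]; simp
  by_contra ne
  have := degree_sub_lt_left (p := T - C s) (q := ∏ k ∈ Finset.range (2 ^ n), (X - C (x k)))
    (by rw [degree_eq_natDegree m1.ne_zero, degree_eq_natDegree m2.ne_zero, d1, d2]) m1.ne_zero
    (by rw [m1.leadingCoeff, m2.leadingCoeff])
  rw [degree_eq_natDegree m1.ne_zero, d1] at this
  refine sub_ne_zero.2 ne (eq_zero_of_natDegree_lt_card_of_eval_eq_zero' _
    ((Finset.range (2 ^ n)).image x) (fun y hy => ?_) ?_)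
  · obtain ⟨k, hk, rfl⟩ := Finset.mem_image.1 hy
    rw [eval_sub, eval_prod, Finset.prod_eq_zero hk (by simp)]
    simp [(hx k (Finset.mem_range.1 hk)).2]
  · rw [Finset.card_image_of_injOn inj, Finset.card_range]
    exact (natDegree_lt_iff_degree_lt (sub_ne_zero.2 ne)).2 this

lemma sgn {N l : ℕ} (hl : l ≤ N) {x : ℕ → ℝ} {y : ℝ} (h1 : ∀ k < l, x k ≤ y)
    (h2 : ∀ k, l ≤ k → k < N → y ≤ x k) :
    0 ≤ (-1) ^ (N + l) * ∏ k ∈ Finset.range N, (y - x k) := by
  induction N, hl using Nat.le_induction with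
  | base =>
    rw [← two_mul, pow_mul]
    simpa using Finset.prod_nonneg fun k hk => sub_nonneg.2 (h1 k (Finset.mem_range.1 hk))
  | succ N hN ih =>
    have := mul_nonneg (ih fun k a b => h2 k a (by omega)) (sub_nonneg.2 (h2 N hN (by omega)))
    rw [Finset.prod_range_succ, Nat.add_right_comm, pow_succ]
    linarith

lemma St.mid (H : St n T e c) {x : ℕ → ℝ} (hx : ∀ k < 2 ^ n, e k < x k ∧ x k < e (k + 1))
    (hT : T = ∏ k ∈ Finset.range (2 ^ n), (X - C (x k))) {i : ℕ} (h0 : 0 < i) (hi : i < 2 ^ n)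
    {y : ℝ} (h1 : e (i - 1) < y) (h2 : y < e (i + 1)) (h3 : 0 < (-1) ^ (2 ^ n + i) * T.eval y) :
    x (i - 1) < y ∧ y < x i := by
  have ev : T.eval y = ∏ k ∈ Finset.range (2 ^ n), (y - x k) := by rw [hT]; simp [eval_prod]
  obtain ⟨i, rfl⟩ : ∃ j, i = j + 1 := ⟨i - 1, by omega⟩
  simp only [add_tsub_cancel_right] at h1 ⊢
  constructor
  · by_contra k
    push Not at k
    have := sgn (N := 2 ^ n) (l := i) (x := x) (y := y) (by omega) (fun j hj =>
      ((hx j (by omega)).2.le.trans (le_of_succ H.inc hj (by omega))).trans h1.le) fun j a b => by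
        rcases a.eq_or_lt with rfl | a
        · exact k
        · exact k.trans (((hx i (by omega)).2.le.trans (le_of_succ H.inc a b.le)).trans (hx j b).1.le)
    rw [ev, ← add_assoc, pow_succ] at h3
    linarith
  · by_contra k
    push Not at k
    have := sgn (N := 2 ^ n) (l := i + 1 + 1) (x := x) (y := y) (by omega) (fun j hj => by
      rcases (Nat.lt_succ_iff.1 hj).eq_or_lt with rfl | a
      · exact k
      · exact ((hx j (by omega)).2.le.trans (le_of_succ H.inc a hi.le)).trans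
          ((hx _ hi).1.le.trans k)) fun j a b =>
        (h2.le.trans (le_of_succ H.inc a b.le)).trans (hx j b).1.le
    rw [← add_assoc, pow_succ, ← ev] at this
    linarith

end Pool.Agent.H.MP_25eb51_an
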