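import Pool.Agent.H.MP_25eb51_an.A

namespace Pool.Agent.H.MP_25eb51_an

open Polynomial Set Filter Topology

variable {n : ℕ} {T : ℝ[X]} {e c : ℕ → ℝ}

lemma St.bd (H : St n T e c) {x : ℕ → ℝ} (hx : ∀ k < 2 ^ n, e k < x k ∧ x k < e (k + 1))
    {k : ℕ} (hk : k < 2 ^ n) : |x k| ≤ 3 := by
  have a := le_of_succ H.inc (Nat.zero_le k) hk.le
  have b := le_of_succ H.inc (show k + 1 ≤ 2 ^ n from hk) le_rfl
  rw [H.lo] at a
  rw [H.hi] at b
  exact abs_le.2 ⟨by linarith [(hx k hk).1], by linarith [(hx k hk).2]⟩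

lemma aev {N : ℕ} (x : ℕ → ℝ) (z : ℂ) : aeval z (∏ k ∈ Finset.range N, (X - C (x k))) =
    ∏ k ∈ Finset.range N, (z - x k) := by simp

lemma pow_le {N : ℕ} {x : ℕ → ℝ} (hx : ∀ k < N, |x k| ≤ 3) (z : ℂ) {j : ℕ} (hj : j ≤ 2 * N) :
    ‖z‖ ^ j ≤ 6 ^ (2 * N) * max 1 (‖∏ k ∈ Finset.range N, (z - x k)‖ ^ 2) := by
  by_cases h : ‖z‖ ≤ 6
  · calc _ ≤ (6 : ℝ) ^ j := by gcongr
      _ ≤ 6 ^ (2 * N) * 1 := by rw [mul_one]; gcongr; norm_num
      _ ≤ _ := by gcongr; exact le_max_left _ _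
  · push Not at h
    have : (‖z‖ / 6) ^ N ≤ ‖∏ k ∈ Finset.range N, (z - x k)‖ := by
      rw [norm_prod, ← Finset.card_range N, ← Finset.prod_const, Finset.card_range]
      refine Finset.prod_le_prod (fun _ _ => by positivity) fun k hk => ?_
      have := norm_sub_norm_le z (x k)
      have := hx k (Finset.mem_range.1 hk)
      rw [Complex.norm_real, Real.norm_eq_abs] at *
      linarith
    calc _ ≤ ‖z‖ ^ (2 * N) := by gcongr; linarith
      _ = 6 ^ (2 * N) * ((‖z‖ / 6) ^ N) ^ 2 := by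
          rw [← pow_mul, mul_comm N, ← mul_pow]; congr 1; ring
      _ ≤ _ := by
          gcongr
          exact le_max_of_le_right (by gcongr)

lemma St.step (H : St n T e c) : ∃ T' e' c', St (n + 1) T' e' c' ∧
    (∀ z : ℂ, ‖aeval z T' - aeval z T ^ 2‖ ≤ 2 + max 1 (‖aeval z T‖ ^ 2) / 4) ∧
    ∀ j, 0 < j → j ≤ n → c' j = c j ∧ (|T.eval (c j)| - 1) ^ 2 ≤ |T'.eval (c j)| - 1 := by
  obtain ⟨x, hx, hT⟩ := H.roots (s := 0) (by simp)
  rw [C_0, sub_zero] at hT
  have x0 : ∀ k < 2 ^ n, T.eval (x k) = 0 := fun k hk => by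
    rw [hT, eval_prod, Finset.prod_eq_zero (Finset.mem_range.2 hk) (by simp)]
  have e2 : 2 ^ (n + 1) = 2 * 2 ^ n := by ring
  have N0 : 0 < 2 ^ n := by positivity
  set N := 2 ^ n with hN
  set v : ℕ → ℝ := fun i => if i % 2 = 0 then e (i / 2) else x (i / 2) with hv
  have ve : ∀ k, v (2 * k) = e k := fun k => by simp [hv]
  have vo : ∀ k, v (2 * k + 1) = x k := fun k => by
    simp [hv, show (2 * k + 1) / 2 = k by omega]
  have vi : ∀ i < 2 * N, v i < v (i + 1) := fun i hi => by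
    obtain ⟨k, rfl | rfl⟩ := Nat.even_or_odd' i
    · rw [ve, vo]; exact (hx k (by omega)).1
    · rw [vo, show 2 * k + 1 + 1 = 2 * (k + 1) by ring, ve]; exact (hx k (by omega)).2
  set P := T ^ 2 - C 2 with hP
  have Pm : P.Monic := (H.mon.pow 2).sub_of_left (degree_C_le.trans_lt (by
    rw [degree_eq_natDegree (H.mon.pow 2).ne_zero, natDegree_pow, H.deg]
    exact_mod_cast (by omega : 0 < 2 * N)))
  have Pd : P.natDegree = 2 * N := by rw [hP, natDegree_sub_C, natDegree_pow, H.deg]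
  have vj : Function.Injective fun i : Fin (2 * N - 1) => v (i + 1) := fun i j h => by
    rcases lt_trichotomy (i : ℕ) j with k | k | k
    · exact absurd h (lt_of_succ vi (by omega) (by omega)).ne
    · exact Fin.ext k
    · exact absurd h (lt_of_succ vi (by omega) (by omega)).ne'
  have h1 : ∀ i : Fin (2 * N - 1), P.derivative.eval (v (i + 1)) = 0 := fun i => by
    have := i.2
    obtain ⟨k, h | h⟩ := Nat.even_or_odd' (i + 1)
    · simp [hP, h, ve, derivative_pow, H.crit k (by omega) (by omega)]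
    · simp [hP, h, vo, derivative_pow, x0 k (by omega)]
  have h2 := simple (p := P.derivative) (fun h => by rw [derivative_eq_zero] at h; omega) vj h1
    (by have := natDegree_derivative_lt (p := P) (by omega); omega)
  set E : (Fin (2 * N - 1) → ℝ) × (Fin (2 * N - 1) → ℝ) → ℕ → ℝ := fun q i =>
    if h : 0 < i ∧ i < 2 * N then q.2 ⟨i - 1, by omega⟩ else v i with hE
  set b : (Fin (2 * N - 1) → ℝ) × (Fin (2 * N - 1) → ℝ) := (0, fun i => v (i + 1))
  have tE : ∀ i, Tendsto (fun q => E q i) (𝓝 b) (𝓝 (v i)) := fun i => by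
    by_cases h : 0 < i ∧ i < 2 * N
    · simp only [hE, dif_pos h]
      have : Continuous fun q : (Fin (2 * N - 1) → ℝ) × (Fin (2 * N - 1) → ℝ) =>
        q.2 ⟨i - 1, by omega⟩ := by fun_prop
      simpa [b, show i - 1 + 1 = i by omega] using this.tendsto b
    · simp only [hE, dif_neg h]; exact tendsto_const_nhds
  have sm : ∀ y, 2 < |T.eval y| → ∀ᶠ q in 𝓝 b, |(pl q.1).eval y| < 2 * (|T.eval y| - 2) := by
    intro y hy
    have : Continuous fun q : (Fin (2 * N - 1) → ℝ) × (Fin (2 * N - 1) → ℝ) =>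
        |(pl q.1).eval y| := by
      simp only [pl, eval_finsetSum, eval_mul, eval_C]; fun_prop
    exact this.continuousAt.eventually_lt continuousAt_const (by simp [b, pl]; linarith)
  have ab : ∀ (m : ℕ) (y : ℝ), 2 < (-1) ^ m * T.eval y → 2 < |T.eval y| := fun m y h =>
    h.trans_le ((le_abs_self _).trans (by simp [abs_mul]))
  have ix : ∀ j, 0 < j → j ≤ n → 0 < N - 2 ^ (n - j) ∧ N - 2 ^ (n - j) < N ∧
      2 ^ (n + 1 - j) = 2 * 2 ^ (n - j) := fun j a b => by
    have : 2 ^ (n - j) < 2 ^ n := Nat.pow_lt_pow_right (by norm_num) (by omega)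
    have : 0 < 2 ^ (n - j) := by positivity
    exact ⟨by omega, by omega, by rw [show n + 1 - j = n - j + 1 by omega]; ring⟩
  have S1 : ∀ᶠ q in 𝓝 b, ∀ i ∈ Finset.range (2 * N), E q i < E q (i + 1) :=
    (eventually_all_finset _).2 fun i hi => (tE i).eventually_lt (tE _) (vi i (Finset.mem_range.1 hi))
  have S2 : ∀ᶠ q in 𝓝 b, (∑ j, |q.1 j|) * 6 ^ (2 * N) < 1 / 4 :=
    ContinuousAt.eventually_lt (by fun_prop) continuousAt_const (by simp [b])
  have S3 : ∀ᶠ q in 𝓝 b, ∀ j ∈ Finset.Icc 1 n, |(pl q.1).eval (c j)| < 2 * (|T.eval (c j)| - 2) ∧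
      E q (2 * (N - 2 ^ (n - j)) - 1) < c j ∧ c j < E q (2 * (N - 2 ^ (n - j)) + 1) :=
    (eventually_all_finset _).2 fun j hj => by
      obtain ⟨j0, j1⟩ := Finset.mem_Icc.1 hj
      obtain ⟨p1, p2, p3⟩ := H.pos j j0 j1
      obtain ⟨i0, i1, -⟩ := ix j j0 j1
      obtain ⟨m1, m2⟩ := H.mid hx hT i0 i1 p1 p2 (by linarith)
      refine (sm _ (ab _ _ p3)).and (((tE _).eventually_lt tendsto_const_nhds ?_).and
        (tendsto_const_nhds.eventually_lt (tE _) ?_))
      · rwa [show 2 * (N - 2 ^ (n - j)) - 1 = 2 * (N - 2 ^ (n - j) - 1) + 1 by omega, vo]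
      · rwa [vo]
  obtain ⟨ε, ε0, q, ⟨s1, s2, s3, s4, s5⟩, hq⟩ := pert P vj h1 h2
    (fun i => if (i : ℕ) + 1 = 2 * N - 1 then -1 else 0)
    (S1.and (S2.and (S3.and ((sm _ H.l3).and (sm _ H.r3)))))
  have gr : ∀ y, 2 < |T.eval y| → |(pl q.1).eval y| < 2 * (|T.eval y| - 2) →
      (|T.eval y| - 1) ^ 2 ≤ (P + pl q.1).eval y - 1 ∧ 2 < (P + pl q.1).eval y := fun y a b => by
    have := (abs_lt.1 b).1
    have := sq_abs (T.eval y)
    simp only [hP, eval_add, eval_sub, eval_pow, eval_C]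
    constructor <;> nlinarith
  have dl : (pl q.1).natDegree < P.natDegree := by
    refine lt_of_le_of_lt (natDegree_sum_le_of_forall_le (n := 2 * N - 1) _ _ fun j _ =>
      (natDegree_C_mul_X_pow_le _ _).trans j.2.le) (by omega)
  have val : ∀ i, 0 < i → i < 2 * N → (P + pl q.1).derivative.eval (E q i) = 0 ∧
      (P + pl q.1).eval (E q i) = T.eval (v i) ^ 2 - 2 + ε * if i = 2 * N - 1 then -1 else 0 := by
    intro i a b
    have := hq ⟨i - 1, by omega⟩
    simp only [show i - 1 + 1 = i by omega] at this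
    simp only [hE, dif_pos (And.intro a b)]
    simpa [hP] using this
  have E0 : E q 0 = -3 := by simp only [hE]; rw [dif_neg (by omega), ← H.lo, ← ve 0]
  have E1 : E q (2 * N) = 3 := by simp only [hE]; rw [dif_neg (by omega), ve, H.hi]
  have pe : ∀ k, (-1 : ℝ) ^ (2 * N + 2 * k) = 1 := fun k => by rw [← mul_add, pow_mul]; simp
  have po : ∀ k, (-1 : ℝ) ^ (2 * N + (2 * k + 1)) = -1 := fun k => by
    rw [← add_assoc, pow_succ, pe]; simp
  refine ⟨P + pl q.1, E q, Function.update c (n + 1) (E q (2 * N - 1)), ⟨Pm.add_of_left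
    (degree_lt_degree dl), ?_, ?_, E0, ?_, ?_, ?_, ?_, ?_, ?_, ?_⟩, fun z => ?_, fun j j0 j1 => ?_⟩
  · rw [natDegree_add_eq_left_of_natDegree_lt dl, Pd, e2]
  · exact fun i hi => s1 i (Finset.mem_range.2 (e2 ▸ hi))
  · rw [e2, E1]
  · exact fun i a b => (val i a (e2 ▸ b)).1
  · rw [e2]
    intro i hi
    obtain ⟨k, rfl | rfl⟩ := Nat.even_or_odd' i
    · rw [pe, one_mul]
      rcases Nat.eq_zero_or_pos k with rfl | k0
      · rw [mul_zero, E0]; exact (gr _ H.l3 s4).2.le
      rcases (show k ≤ N by omega).eq_or_lt with rfl | k1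
      · rw [E1]; exact (gr _ H.r3 s5).2.le
      rw [(val _ (by omega) (by omega)).2, if_neg (by omega), ve]
      have := (H.alt k k1.le).trans ((le_abs_self _).trans (le_of_eq (abs_mul _ _)))
      simp only [abs_pow, abs_neg, abs_one, one_pow, one_mul] at this
      nlinarith [sq_abs (T.eval (e k))]
    · rw [po, (val _ (by omega) (by omega)).2, vo, x0 k (by omega)]
      split_ifs <;> linarith
  · rw [e2]
    intro i a b
    obtain ⟨k, rfl | rfl⟩ := Nat.even_or_odd' i
    · rcases H.eq k (by omega) (by omega) with h | ⟨j, j1, h⟩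
      · left
        rw [(val _ a b).2, if_neg (by omega), ve, ← sq_abs, h]; norm_num
      · refine Or.inr ⟨j, by omega, ?_⟩
        rw [e2, show n + 1 - j = n - j + 1 by omega, pow_succ]; omega
    · by_cases h : 2 * k + 1 = 2 * N - 1
      · exact Or.inr ⟨n + 1, le_rfl, by rw [e2]; simp; omega⟩
      · left
        rw [(val _ a b).2, if_neg h, vo, x0 k (by omega)]; norm_num
  · exact (gr _ H.l3 s4).2.trans_le (le_abs_self _)
  · exact (gr _ H.r3 s5).2.trans_le (le_abs_self _)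
  · intro j j0 j1
    rw [e2]
    rcases j1.eq_or_lt with rfl | j1
    · simp only [Function.update_self, le_refl, Nat.sub_eq_zero_of_le, pow_zero]
      refine ⟨?_, s1 _ (Finset.mem_range.2 (by omega)), ?_⟩
      · have := s1 (2 * N - 1 - 1) (Finset.mem_range.2 (by omega))
        rwa [show 2 * N - 1 - 1 + 1 = 2 * N - 1 by omega] at this
      · rw [(val _ (by omega) (by omega)).2, if_pos rfl, show 2 * N - 1 = 2 * (N - 1) + 1 by omega,
          po, vo, x0 _ (by omega)]
        linarith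
    · obtain ⟨i0, i1, i2⟩ := ix j j0 (by omega)
      obtain ⟨a1, a2, a3⟩ := s3 j (Finset.mem_Icc.2 ⟨j0, by omega⟩)
      rw [Function.update_of_ne j1.ne, i2, ← Nat.mul_sub, pe, one_mul]
      exact ⟨a2, a3, (gr _ (ab _ _ (H.pos j j0 (by omega)).2.2) a1).2⟩
  · have : ‖aeval z (pl q.1)‖ ≤ (∑ j, |q.1 j|) * (6 ^ (2 * N) * max 1 (‖aeval z T‖ ^ 2)) := by
      rw [pl, map_sum, Finset.sum_mul]
      refine (norm_sum_le _ _).trans (Finset.sum_le_sum fun j _ => ?_)
      have := pow_le (fun k hk => H.bd hx hk) z (j := j) (by omega)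
      rw [← aev, ← hT] at this
      simp only [map_mul, aeval_C, map_pow, aeval_X, Complex.coe_algebraMap, norm_mul, norm_pow,
        Complex.norm_real, Real.norm_eq_abs]
      gcongr
    have e : aeval z (P + pl q.1) - aeval z T ^ 2 = -2 + aeval z (pl q.1) := by
      simp [hP, map_ofNat]; ring
    rw [e]
    refine (norm_add_le _ _).trans ?_
    have m : 0 ≤ max 1 (‖aeval z T‖ ^ 2) := by positivity
    simp only [norm_neg, Complex.norm_ofNat]
    nlinarith
  · refine ⟨Function.update_of_ne (by omega) _ _, ?_⟩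
    have := (gr _ (ab _ _ (H.pos j j0 j1).2.2) (s3 j (Finset.mem_Icc.2 ⟨j0, j1⟩)).1).1
    linarith [le_abs_self ((P + pl q.1).eval (c j))]

lemma cnt {N l : ℕ} (hl : l ≤ N) {x : ℕ → ℝ} {y : ℝ} (h1 : ∀ k < l, x k ≤ y)
    (h2 : ∀ k, l ≤ k → k < N → y < x k) : ((Finset.range N).filter fun k => x k ≤ y).card = l := by
  rw [← Finset.card_range l]
  congr 1
  ext k
  simp only [Finset.mem_filter, Finset.mem_range]
  exact ⟨fun ⟨a, b⟩ => by by_contra h; linarith [h2 k (by omega) a], fun h => ⟨by omega, h1 k h⟩⟩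

lemma St.gap (H : St n T e c) {x : ℕ → ℝ} (hx : ∀ k < 2 ^ n, e k < x k ∧ x k < e (k + 1))
    (hT : T = ∏ k ∈ Finset.range (2 ^ n), (X - C (x k))) {y : ℝ} (hy : 2 < |T.eval y|) :
    ((Finset.range (2 ^ n)).filter fun k => x k ≤ y).card = 2 ^ n ∨
      V n ((Finset.range (2 ^ n)).filter fun k => x k ≤ y).card := by
  have x0 : ∀ k < 2 ^ n, T.eval (x k) = 0 := fun k hk => by
    rw [hT, eval_prod, Finset.prod_eq_zero (Finset.mem_range.2 hk) (by simp)]
  have mo : ∀ i j, i ≤ j → j < 2 ^ n → x i ≤ x j := fun i j hij hj => hij.eq_or_lt.elim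
    (fun h => h ▸ le_rfl) fun h => ((hx i (by omega)).2.le.trans
      (le_of_succ H.inc h hj.le)).trans (hx j hj).1.le
  have ex : ∃ l, l = 2 ^ n ∨ (l < 2 ^ n ∧ y < x l) := ⟨_, Or.inl rfl⟩
  classical
  have l1 := Nat.find_spec ex
  have l2 : ∀ k < Nat.find ex, _ := fun k => Nat.find_min ex (m := k)
  have l3 : Nat.find ex ≤ 2 ^ n := Nat.find_min' ex (Or.inl rfl)
  set l := Nat.find ex
  have a : ∀ k < l, x k ≤ y := fun k hk => by
    have := l2 k hk
    push Not at this
    exact this.2 (by omega)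
  rw [cnt l3 a fun k k1 k2 => (l1.resolve_left (by omega)).2.trans_le (mo _ _ k1 k2)]
  refine l1.imp_right fun ⟨b1, b2⟩ => ?_
  rcases Nat.eq_zero_or_pos l with h | h
  · exact ⟨0, by simp, by simp [h]⟩
  have a' := a (l - 1) (by omega)
  obtain ⟨t, ht, hm⟩ := isCompact_Icc.exists_isMaxOn (f := fun t => T.eval t ^ 2)
    (nonempty_Icc.2 (a'.trans b2.le)) (by fun_prop)
  have big : 4 < T.eval t ^ 2 := by
    have : T.eval y ^ 2 ≤ T.eval t ^ 2 := hm ⟨a', b2.le⟩
    nlinarith [sq_abs (T.eval y)]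
  have t1 : x (l - 1) < t := ht.1.lt_of_ne fun k => by rw [← k, x0 _ (by omega)] at big; linarith
  have t2 : t < x l := ht.2.lt_of_ne fun k => by rw [k, x0 _ b1] at big; linarith
  have d := (hm.isLocalMax (Icc_mem_nhds t1 t2)).hasDerivAt_eq_zero ((T.hasDerivAt t).pow 2)
  have d' : T.derivative.eval t = 0 := by
    simp only [mul_eq_zero] at d
    refine d.resolve_left ?_
    rintro (k | k)
    · norm_num at k
    · simp at k; rw [k] at big; linarith
  obtain ⟨i, hi, rfl⟩ := all_roots (p := T.derivative) (s := Finset.Ioo 0 (2 ^ n)) (v := e)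
    (fun h => by rw [derivative_eq_zero, H.deg] at h; omega) (fun i hi j hj h => by
      simp only [Finset.coe_Ioo, mem_Ioo] at hi hj
      rcases lt_trichotomy i j with k | k | k
      · exact absurd h (lt_of_succ H.inc k hj.2.le).ne
      · exact k
      · exact absurd h (lt_of_succ H.inc k hi.2.le).ne')
    (fun i hi => H.crit i (Finset.mem_Ioo.1 hi).1 (Finset.mem_Ioo.1 hi).2)
    (by have := natDegree_derivative_lt (p := T) (by rw [H.deg]; positivity)
        rw [H.deg] at this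
        rw [Nat.card_Ioo]
        generalize 2 ^ n = m at this
        omega) d'
  obtain ⟨i0, i1⟩ := Finset.mem_Ioo.1 hi
  obtain rfl : i = l := by
    rcases lt_trichotomy i l with k | k | k
    · linarith [le_of_succ H.inc (show i ≤ l - 1 by omega) (by omega), (hx (l - 1) (by omega)).1]
    · exact k
    · linarith [le_of_succ H.inc (show l + 1 ≤ i from k) i1.le, (hx l b1).2]
  refine (H.eq _ i0 i1).resolve_left fun k => ?_
  rw [← sq_abs, k] at big
  linarith

end Pool.Agent.H.MP_25eb51_an
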