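import Pool.Agent.H.MP_25eb51_an.B

namespace Pool.Agent.H.MP_25eb51_an

open Polynomial Set Filter Topology

lemma shrink {z : ℂ} (hz : z.im ≠ 0) : ∃ θ < (1 : ℝ), 0 ≤ θ ∧ ∃ w : ℂ, ∀ (N : ℕ) (x : ℕ → ℝ), 0 < N →
    (∀ k < N, |x k| ≤ 3) →
      ‖∏ k ∈ Finset.range N, (w - x k)‖ ≤ θ * ‖∏ k ∈ Finset.range N, (z - x k)‖ := by
  have y0 : 0 < z.im ^ 2 := by positivity
  set B := (‖z‖ + 3) ^ 2 with hB
  have B0 : 0 < B := by positivity
  have yB : z.im ^ 2 ≤ B := by
    rw [← sq_abs]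
    exact pow_le_pow_left₀ (abs_nonneg _) (by linarith [Complex.abs_im_le_norm z]) 2
  set r := z.im ^ 2 / B with hr
  have r0 : 0 < r := by positivity
  have r1 : r ≤ 1 := (div_le_one B0).2 yB
  refine ⟨1 - r / 4, by linarith, by linarith, ⟨z.re, z.im / 2⟩, fun N x hN hx => ?_⟩
  have one : ∀ t : ℝ, |t| ≤ 3 → ‖(⟨z.re, z.im / 2⟩ : ℂ) - t‖ ≤ (1 - r / 4) * ‖z - t‖ := by
    intro t ht
    have a : ‖z - t‖ ^ 2 ≤ B := pow_le_pow_left₀ (norm_nonneg _) ((norm_sub_le _ _).trans (by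
      rw [Complex.norm_real, Real.norm_eq_abs]; linarith)) 2
    have b : ‖(⟨z.re, z.im / 2⟩ : ℂ) - t‖ ^ 2 = ‖z - t‖ ^ 2 - 3 / 4 * z.im ^ 2 := by
      simp only [Complex.sq_norm, Complex.normSq_apply]; simp; ring
    have c : r * ‖z - t‖ ^ 2 ≤ z.im ^ 2 := by
      rw [hr, div_mul_eq_mul_div, div_le_iff₀ B0]; gcongr
    refine le_of_sq_le_sq (by
      rw [b, mul_pow]; nlinarith [mul_nonneg (sq_nonneg r) (sq_nonneg ‖z - t‖)])
      (mul_nonneg (by linarith) (norm_nonneg _))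
  rw [norm_prod, norm_prod]
  calc _ ≤ ∏ k ∈ Finset.range N, ((1 - r / 4) * ‖z - x k‖) :=
        Finset.prod_le_prod (fun _ _ => norm_nonneg _) fun k hk => one _ (hx k (Finset.mem_range.1 hk))
    _ = (1 - r / 4) ^ N * ∏ k ∈ Finset.range N, ‖z - x k‖ := by
        rw [Finset.prod_mul_distrib, Finset.prod_const, Finset.card_range]
    _ ≤ _ := mul_le_mul_of_nonneg_right (pow_le_of_le_one (by linarith) (by linarith) hN.ne')
        (Finset.prod_nonneg fun _ _ => norm_nonneg _)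

noncomputable def Pz (x : ℕ → ℕ → ℝ) (m : ℕ) (z : ℂ) : ℂ := ∏ k ∈ Finset.range (2 ^ m), (z - x m k)

noncomputable def ct (x : ℕ → ℕ → ℝ) (m : ℕ) (y : ℝ) : ℕ :=
  ((Finset.range (2 ^ m)).filter fun k => x m k ≤ y).card

theorem polys : ∃ (x : ℕ → ℕ → ℝ) (g : ℂ → ℝ) (c : ℕ → ℝ), (∀ m, ∀ k < 2 ^ m, |x m k| ≤ 3) ∧
    Continuous g ∧ (∀ m z, |Real.log (max 1 ‖Pz x m z‖) / 2 ^ m - g z| ≤ 2 / 2 ^ m) ∧
    (∀ z : ℂ, z.im ≠ 0 → ∃ ε > 0, ∀ m, ε ≤ ‖Pz x m z‖) ∧
    (∀ m (y : ℝ), 2 < ‖Pz x m y‖ → ct x m y = 2 ^ m ∨ V m (ct x m y)) ∧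
    ∀ j, 0 < j → 0 < g (c j) ∧ ∀ m, j ≤ m → ct x m (c j) + 2 ^ (m - j) = 2 ^ m := by
  choose T' e' c' s1 s2 s3 using fun (n : ℕ) (s : {s : ℝ[X] × (ℕ → ℝ) × (ℕ → ℝ) //
    St n s.1 s.2.1 s.2.2}) => s.2.step
  have s0 : St 0 X (fun i => if i = 0 then -3 else 3) 0 := by
    refine ⟨monic_X, by simp, by simp, by simp, by simp, fun i a b => by omega, fun i hi => ?_,
      fun i a b => by omega, by norm_num, by norm_num, fun i a b => by omega⟩
    interval_cases i <;> norm_num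
  let S : ∀ n, {s : ℝ[X] × (ℕ → ℝ) × (ℕ → ℝ) // St n s.1 s.2.1 s.2.2} := fun n =>
    Nat.rec ⟨(X, fun i => if i = 0 then -3 else 3, 0), s0⟩
      (fun n s => ⟨(T' n s, e' n s, c' n s), s1 n s⟩) n
  set T : ℕ → ℝ[X] := fun n => (S n).1.1 with hT
  set c : ℕ → ℕ → ℝ := fun n => (S n).1.2.2 with hc
  have t2 : ∀ n (z : ℂ), ‖aeval z (T (n + 1)) - aeval z (T n) ^ 2‖ ≤
      2 + max 1 (‖aeval z (T n)‖ ^ 2) / 4 := fun n => s2 n (S n)
  have t3 : ∀ n j, 0 < j → j ≤ n → c (n + 1) j = c n j ∧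
      (|(T n).eval (c n j)| - 1) ^ 2 ≤ |(T (n + 1)).eval (c n j)| - 1 := fun n => s3 n (S n)
  choose x x1 x2 using fun n => (S n).2.roots (s := 0) (by simp)
  simp only [C_0, sub_zero] at x2
  have pz : ∀ m z, Pz x m z = aeval z (T m) := fun m z => by rw [hT]; simp only; rw [x2, aev, Pz]
  have pr : ∀ m (y : ℝ), ‖Pz x m y‖ = |(T m).eval y| := fun m y => by
    rw [pz, ← Complex.coe_algebraMap, aeval_algebraMap_apply_eq_algebraMap_eval]; simp
  set h : ℕ → ℂ → ℝ := fun m z => Real.log (max 1 ‖Pz x m z‖) / 2 ^ m with hh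
  have hd : ∀ z m, dist (h m z) (h (m + 1) z) ≤ 2 / 2 / 2 ^ m := fun z m => by
    have a := t2 m z
    rw [← pz, ← pz] at a
    have b := abs_le.1 ((abs_norm_sub_norm_le _ _).trans a)
    rw [norm_pow] at b
    set w := ‖Pz x m z‖
    set w' := ‖Pz x (m + 1) z‖
    have w0 : 0 ≤ w := norm_nonneg _
    have sq : max 1 (w ^ 2) = max 1 w ^ 2 := by
      rcases le_total w 1 with k | k
      · rw [max_eq_left k, max_eq_left (by nlinarith)]; simp
      · rw [max_eq_right k, max_eq_right (by nlinarith)]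
    have m1 := le_max_left 1 (w ^ 2)
    have m2 := le_max_right 1 (w ^ 2)
    have m3 := le_max_left 1 w'
    have m4 := le_max_right 1 w'
    have u1 : max 1 w' ≤ 4 * max 1 (w ^ 2) := max_le (by linarith) (by linarith [b.2])
    have u2 : max 1 (w ^ 2) ≤ 4 * max 1 w' := by
      rcases le_total (w ^ 2) 4 with k | k
      · exact max_le (by linarith) (by linarith)
      · rw [max_eq_right (by linarith : 1 ≤ w ^ 2)] at *; linarith [b.1]
    have l4 : Real.log 4 ≤ 2 := by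
      rw [show (4 : ℝ) = 2 ^ 2 by norm_num, Real.log_pow]
      have := Real.log_two_lt_d9; norm_num; linarith
    have v1 := Real.log_le_log (by linarith) u1
    have v2 := Real.log_le_log (by linarith) u2
    rw [Real.log_mul (by norm_num) (by linarith), sq, Real.log_pow] at v1 v2
    have : h m z - h (m + 1) z = (2 * Real.log (max 1 w) - Real.log (max 1 w')) / 2 / 2 ^ m := by
      simp only [hh]; rw [pow_succ]; field_simp; ring
    rw [Real.dist_eq, this, abs_div, abs_div, abs_of_pos (by positivity : (0 : ℝ) < 2 ^ m),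
      abs_two]
    gcongr
    push_cast at v1 v2
    exact abs_le.2 ⟨by linarith, by linarith⟩
  choose g hg using fun z => cauchySeq_tendsto_of_complete (cauchySeq_of_le_geometric_two (hd z))
  have gb : ∀ m z, |h m z - g z| ≤ 2 / 2 ^ m := fun m z =>
    dist_le_of_le_geometric_two_of_tendsto (hd z) (hg z) m
  have cj : ∀ j m, 0 < j → j ≤ m → c m j = c j j ∧
      (|(T j).eval (c j j)| - 1) ^ 2 ^ (m - j) ≤ |(T m).eval (c j j)| - 1 := by
    intro j m j0 hm
    have p := ((S j).2.pos j j0 le_rfl).2.2.trans_le ((le_abs_self _).trans (le_of_eq (abs_mul _ _)))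
    simp only [abs_pow, abs_neg, abs_one, one_pow, one_mul] at p
    induction m, hm using Nat.le_induction with
    | base => simp
    | succ m hm ih =>
      obtain ⟨a, b⟩ := t3 m j j0 hm
      rw [ih.1] at a b
      refine ⟨a, le_trans ?_ b⟩
      rw [show m + 1 - j = m - j + 1 by omega, pow_succ, pow_mul]
      exact pow_le_pow_left₀ (pow_nonneg (by linarith [show 2 < |(T j).eval (c j j)| from p]) _) ih.2 2
  refine ⟨x, g, fun j => c j j, fun m k hk => (S m).2.bd (x1 m) hk, ?_, gb, fun z hz => ?_,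
    fun m y hy => (S m).2.gap (x1 m) (x2 m) (pr m y ▸ hy), fun j j0 => ⟨?_, fun m hm => ?_⟩⟩
  · refine TendstoUniformly.continuous (F := h) (p := atTop) ?_ (Frequently.of_forall fun m => ?_)
    · refine Metric.tendstoUniformly_iff.2 fun ε hε => ?_
      have : Tendsto (fun m : ℕ => (2 : ℝ) / 2 ^ m) atTop (𝓝 0) :=
        tendsto_const_nhds.div_atTop (tendsto_pow_atTop_atTop_of_one_lt (by norm_num))
      filter_upwards [this.eventually (gt_mem_nhds hε)] with m hm z
      rw [dist_comm]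
      exact (gb m z).trans_lt hm
    · refine (Continuous.log (by unfold Pz; fun_prop) fun z => ?_).div_const _
      exact (one_pos.trans_le (le_max_left _ _)).ne'
  · obtain ⟨θ, θ1, θ0, w, hw⟩ := shrink hz
    refine ⟨(1 - θ) / 2, by linarith, fun m => ?_⟩
    obtain ⟨y, y1, y2⟩ := (S m).2.roots (s := 1) (by norm_num)
    have a := hw _ (x m) (by positivity) fun k hk => (S m).2.bd (x1 m) hk
    have b := hw _ y (by positivity) fun k hk => (S m).2.bd y1 hk
    rw [← aev, ← aev, ← y2] at b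
    rw [← aev, ← aev, ← x2] at a
    simp only [map_sub, map_one] at b
    rw [pz]
    have c1 := norm_sub_le (aeval w (T m)) (aeval w (T m) - 1)
    have c2 := norm_sub_le (aeval z (T m)) 1
    simp only [sub_sub_cancel, norm_one] at c1 c2
    change ‖aeval w (T m)‖ ≤ θ * ‖aeval z (T m)‖ at a
    change ‖aeval w (T m) - 1‖ ≤ θ * ‖aeval z (T m) - 1‖ at b
    nlinarith [norm_nonneg (aeval z (T m)), mul_le_mul_of_nonneg_left c2 θ0]
  · have p := ((S j).2.pos j j0 le_rfl).2.2.trans_le ((le_abs_self _).trans (le_of_eq (abs_mul _ _)))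
    simp only [abs_pow, abs_neg, abs_one, one_pow, one_mul] at p
    change 2 < |(T j).eval (c j j)| at p
    refine lt_of_lt_of_le (show 0 < Real.log (|(T j).eval (c j j)| - 1) / 2 ^ j from
      div_pos (Real.log_pos (by linarith)) (by positivity)) (ge_of_tendsto (hg _) ?_)
    filter_upwards [eventually_ge_atTop j] with m hm
    have := Real.log_le_log (pow_pos (by linarith) _) ((cj j m j0 hm).2.trans
      (show _ ≤ max 1 ‖Pz x m (c j j)‖ by rw [pr]; exact le_max_of_le_right (by linarith)))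
    rw [Real.log_pow] at this
    simp only [hh]
    rw [div_le_div_iff₀ (by positivity) (by positivity), ← Nat.sub_add_cancel hm, pow_add,
      Nat.sub_add_cancel hm, ← mul_assoc]
    gcongr
    push_cast at this
    linarith
  · obtain ⟨p1, p2, p3⟩ := (S m).2.pos j j0 hm
    have i1 : 2 ^ (m - j) < 2 ^ m := Nat.pow_lt_pow_right (by norm_num) (by omega)
    have i2 : 0 < 2 ^ (m - j) := by positivity
    obtain ⟨m1, m2⟩ := (S m).2.mid (x1 m) (x2 m) (by omega) (by omega) p1 p2 (by linarith)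
    have mo : ∀ i j, i ≤ j → j < 2 ^ m → x m i ≤ x m j := fun i j hij hj => hij.eq_or_lt.elim
      (fun h => h ▸ le_rfl) fun h => ((x1 m i (by omega)).2.le.trans
        (le_of_succ (S m).2.inc h hj.le)).trans (x1 m j hj).1.le
    change _ < c m j at m1
    change c m j < _ at m2
    rw [(cj j m j0 hm).1] at m1 m2
    rw [ct, cnt (l := 2 ^ m - 2 ^ (m - j)) (by omega) (fun k hk => (mo _ _ (by omega)
      (by omega)).trans m1.le) fun k a b => m2.trans_le (mo _ _ a b)]
    omega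

end Pool.Agent.H.MP_25eb51_an
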