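import Pool.Agent.H.MP_25eb51_an.C
import Pool.Agent.H.MP_7fabd3_an.A

namespace Pool.Agent.H.MP_25eb51_an

open MeasureTheory Set Filter Topology Pool.Agent.H.MP_7f7d18_an
open scoped ENNReal

lemma lim {x : ℕ → ℕ → ℝ} (hx : ∀ m, ∀ k < 2 ^ m, |x m k| ≤ 3) : ∃ μ : Measure ℝ,
    IsProbabilityMeasure μ ∧ μ (Icc (-3) 3)ᶜ = 0 ∧ ∃ s : ℕ → ℕ, StrictMono s ∧ ∀ φ : ℝ → ℝ,
      Continuous φ → Tendsto (fun m => (∑ k ∈ Finset.range (2 ^ s m), φ (x (s m) k)) / 2 ^ s m)
        atTop (𝓝 (∫ y, φ y ∂μ)) := by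
  have h3 : (-3 : ℝ) ≤ 3 := by norm_num
  let ν : ℕ → ProbabilityMeasure (Icc (-3 : ℝ) 3) := fun m =>
    ⟨((2 : ℝ≥0∞) ^ m)⁻¹ • ∑ k ∈ Finset.range (2 ^ m), Measure.dirac (projIcc _ _ h3 (x m k)), ⟨by
      simp [ENNReal.inv_mul_cancel]⟩⟩
  obtain ⟨μ, s, hs, ht⟩ := CompactSpace.tendsto_subseq ν
  refine ⟨(μ : Measure (Icc (-3 : ℝ) 3)).map Subtype.val, Measure.isProbabilityMeasure_map
    measurable_subtype_coe.aemeasurable, ?_, s, hs, fun φ hφ => ?_⟩
  · rw [Measure.map_apply measurable_subtype_coe measurableSet_Icc.compl]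
    convert measure_empty (μ := (μ : Measure (Icc (-3 : ℝ) 3)))
    ext y; simp
  · have := ProbabilityMeasure.tendsto_iff_forall_integral_tendsto.1 ht
      (BoundedContinuousFunction.mkOfCompact ⟨fun y => φ y, by fun_prop⟩)
    rw [integral_map measurable_subtype_coe.aemeasurable hφ.aestronglyMeasurable]
    refine this.congr fun m => ?_
    simp only [Function.comp, ν, ProbabilityMeasure.coe_mk, integral_smul_measure]
    rw [integral_finsetSum_measure fun k _ => integrable_dirac (by simp)]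
    simp only [integral_dirac, BoundedContinuousFunction.mkOfCompact_apply, ContinuousMap.coe_mk]
    rw [Finset.sum_congr (g := fun k => φ (x (s m) k)) rfl fun k hk => by
      rw [projIcc_of_mem h3 (abs_le.1 (hx _ k (Finset.mem_range.1 hk)))]]
    simp [div_eq_inv_mul]

lemma real_pot {μ : Measure ℝ} [IsProbabilityMeasure μ] (hμ : μ (Icc (-3) 3)ᶜ = 0) {g : ℂ → ℝ}
    (hg : Continuous g) (h : ∀ z : ℂ, z.im ≠ 0 → ∫ y : ℝ, Real.log ‖z - y‖ ∂μ = g z) (t : ℝ) {D : ℝ}
    (hD : |t| + 4 ≤ D) : U D μ t = ENNReal.ofReal (Real.log D - g t) := by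
  have ae : ∀ᵐ y ∂μ, y ∈ Icc (-3 : ℝ) 3 := hμ
  have D0 : 0 < D := by linarith [abs_nonneg t]
  set z : ℕ → ℂ := fun n => ⟨t, 1 / (n + 1)⟩ with hz
  have zp : ∀ n (y : ℝ), 0 < ‖z n - y‖ := fun n y => norm_pos_iff.2 fun e => by
    have := congrArg Complex.im e
    simp [hz] at this
    linarith [(n.cast_nonneg : (0 : ℝ) ≤ n)]
  have zc : ∀ n, Continuous fun y : ℝ => Real.log ‖z n - y‖ := fun n =>
    Continuous.log (by fun_prop) fun y => (zp n y).ne'
  have zs : ∀ n (y : ℝ), ‖z n - y‖ = √((t - y) ^ 2 + (1 / (n + 1)) ^ 2) := fun n y => by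
    rw [Complex.norm_eq_sqrt_sq_add_sq]; simp [hz]
  have zt : Tendsto z atTop (𝓝 t) := by
    have : z = fun n : ℕ => (t : ℂ) + ((1 / (n + 1) : ℝ) : ℂ) * Complex.I :=
      funext fun n => Complex.mk_eq_add_mul_I _ _
    rw [this]
    simpa using (((Complex.continuous_ofReal.tendsto 0).comp
      (tendsto_one_div_add_atTop_nhds_zero_nat (𝕜 := ℝ))).mul_const Complex.I).const_add (t : ℂ)
  have l1 : Tendsto (fun n => ∫⁻ y : ℝ, ENNReal.ofReal (Real.log D - Real.log ‖z n - y‖) ∂μ) atTop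
      (𝓝 (U D μ t)) := by
    refine lintegral_tendsto_of_tendsto_of_monotone (fun n => ((continuous_const.sub (zc n)).measurable
      ).ennreal_ofReal.aemeasurable) (Eventually.of_forall fun y m n hmn => ?_)
      (Eventually.of_forall fun y => ?_)
    · refine ENNReal.ofReal_le_ofReal (sub_le_sub_left (Real.log_le_log (zp n y) ?_) _)
      rw [zs, zs]
      have : (m : ℝ) ≤ n := by exact_mod_cast hmn
      gcongr
    · have a : Tendsto (fun n => ‖z n - y‖) atTop (𝓝 |t - y|) := by
        have := (zt.sub_const (y : ℂ)).norm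
        rwa [← Complex.ofReal_sub, Complex.norm_real, Real.norm_eq_abs] at this
      by_cases e : t = y
      · rw [k, if_pos e]
        rw [e, sub_self, abs_zero] at a
        exact ENNReal.tendsto_ofReal_atTop.comp (tendsto_atTop_add_const_left _ _
          (tendsto_neg_atBot_atTop.comp (Real.tendsto_log_nhdsGT_zero.comp
            (tendsto_nhdsWithin_iff.2 ⟨a, Eventually.of_forall fun n => e ▸ zp n y⟩))))
      · have p : |t - y| ≠ 0 := abs_ne_zero.2 (sub_ne_zero.2 e)
        rw [k, if_neg e, Real.log_div D0.ne' p]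
        exact ENNReal.tendsto_ofReal ((a.log p).const_sub _)
  refine tendsto_nhds_unique l1 ((ENNReal.tendsto_ofReal (((hg.tendsto _).comp zt).const_sub
    (Real.log D))).congr fun n => ?_)
  have i : Integrable (fun y : ℝ => Real.log ‖z n - y‖) μ := int_cont isCompact_Icc hμ (zc n)
  rw [← ofReal_integral_eq_lintegral_ofReal (f := fun y : ℝ => Real.log D - Real.log ‖z n - y‖)
    ((integrable_const _).sub i), integral_sub
    (integrable_const _) i, h _ (by simp only [hz]; positivity)]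
  · simp
  · filter_upwards [ae] with y hy
    refine sub_nonneg.2 (Real.log_le_log (zp n y) ?_)
    have a : (1 : ℝ) / (n + 1) ≤ 1 := by rw [div_le_one (by positivity)]; simp
    have b := Complex.norm_le_abs_re_add_abs_im (z n - y)
    have c := abs_sub t y
    have d := abs_le.2 hy
    simp only [hz, Complex.sub_re, Complex.ofReal_re, Complex.sub_im, Complex.ofReal_im, sub_zero,
      abs_of_pos (show (0 : ℝ) < 1 / (n + 1) by positivity)] at b
    simp only [hz]
    linarith

lemma real_int {μ : Measure ℝ} [IsProbabilityMeasure μ] (hμ : μ (Icc (-3) 3)ᶜ = 0) {g : ℂ → ℝ}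
    (hg : Continuous g) (h : ∀ z : ℂ, z.im ≠ 0 → ∫ y : ℝ, Real.log ‖z - y‖ ∂μ = g z) (t : ℝ) :
    μ {t} = 0 ∧ Integrable (fun y => Real.log |t - y|) μ ∧ ∫ y, Real.log |t - y| ∂μ = g t := by
  have ae : ∀ᵐ y ∂μ, y ∈ Icc (-3 : ℝ) 3 := hμ
  set D := max (|t| + 4) (Real.exp (g t)) with hD
  have D0 : 0 < D := lt_max_of_lt_right (Real.exp_pos _)
  have D1 : g t ≤ Real.log D := (Real.le_log_iff_exp_le D0).2 (le_max_right _ _)
  have u := real_pot hμ hg h t (le_max_left _ (Real.exp (g t)))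
  rw [← hD] at u
  have a0 : μ {t} = 0 := by
    by_contra a
    have : U D μ t = ⊤ := by
      refine top_le_iff.1 (le_trans ?_ (setLIntegral_le_lintegral {t} _))
      rw [lintegral_singleton]
      simp [k, ENNReal.top_mul a]
    exact ENNReal.ofReal_ne_top (u ▸ this)
  have e : U D μ t = ∫⁻ y, ENNReal.ofReal (Real.log D - Real.log |t - y|) ∂μ := by
    refine lintegral_congr_ae ?_
    filter_upwards [ae_ne a0] with y hy
    rw [k, if_neg hy.symm, Real.log_div D0.ne' (abs_ne_zero.2 (sub_ne_zero.2 hy.symm))]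
  have nn : 0 ≤ᵐ[μ] fun y => Real.log D - Real.log |t - y| := by
    filter_upwards [ae, ae_ne a0] with y hy hy'
    refine sub_nonneg.2 (Real.log_le_log (abs_pos.2 (sub_ne_zero.2 hy'.symm)) ?_)
    linarith [abs_sub t y, abs_le.2 hy, le_max_left (|t| + 4) (Real.exp (g t))]
  have ms : AEStronglyMeasurable (fun y => Real.log D - Real.log |t - y|) μ :=
    Measurable.aestronglyMeasurable (by fun_prop)
  have i := (lintegral_ofReal_ne_top_iff_integrable ms nn).1 (e ▸ u ▸ ENNReal.ofReal_ne_top)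
  have i2 : Integrable (fun y => Real.log |t - y|) μ := by
    exact ((integrable_const (Real.log D)).sub i).congr (Eventually.of_forall fun y => by simp)
  refine ⟨a0, i2, ?_⟩
  have := integral_eq_lintegral_of_nonneg_ae nn ms
  rw [← e, u, ENNReal.toReal_ofReal (by linarith), integral_sub (integrable_const _) i2] at this
  simp only [integral_const, probReal_univ, one_smul] at this
  linarith

theorem meas : ∃ (μ : Measure ℝ) (g : ℂ → ℝ) (c : ℕ → ℝ) (K : Set ℝ), IsProbabilityMeasure μ ∧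
    IsCompact K ∧ K ⊆ Icc (-3) 3 ∧ μ Kᶜ = 0 ∧ Continuous g ∧ (∀ t ∈ K, g t = 0) ∧
    (∀ z : ℂ, Integrable (fun y : ℝ => Real.log ‖z - y‖) μ ∧ ∫ y : ℝ, Real.log ‖z - y‖ ∂μ = g z) ∧
    (∀ t ∈ K, U 7 μ t = ENNReal.ofReal (Real.log 7)) ∧
    (∀ t ∉ K, μ.real (Iic t) = 1 ∨ ∃ j : ℕ, μ.real (Iic t) = 1 - 1 / 2 ^ j) ∧
    (∀ j, 0 < j → c j ∉ K ∧ μ.real (Iic (c j)) = 1 - 1 / 2 ^ j) ∧
    ∀ a d b, a ∈ Icc (-3 : ℝ) 3 → b ∈ Icc (-3 : ℝ) 3 → a ∉ K → b ∉ K → d ∈ K → a < d → d < b →
      μ.real (Iic a) ≠ μ.real (Iic b) := by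
  obtain ⟨x, g, c, x1, gc, gb, g1, g2, g3⟩ := polys
  obtain ⟨μ, hμ, m3, s, hs, ht⟩ := lim x1
  have ae : ∀ᵐ y ∂μ, y ∈ Icc (-3 : ℝ) 3 := m3
  have t2 : ∀ a : ℝ, Tendsto (fun m : ℕ => a / 2 ^ m) atTop (𝓝 0) := fun a =>
    tendsto_const_nhds.div_atTop (tendsto_pow_atTop_atTop_of_one_lt (by norm_num))
  have gl : ∀ z, Tendsto (fun m => Real.log (max 1 ‖Pz x m z‖) / 2 ^ m) atTop (𝓝 (g z)) := fun z =>
    tendsto_iff_norm_sub_tendsto_zero.2 (squeeze_zero (fun _ => norm_nonneg _) (gb · z) (t2 2))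
  have g0 : ∀ z, 0 ≤ g z := fun z => ge_of_tendsto' (gl z) fun m =>
    div_nonneg (Real.log_nonneg (le_max_left _ _)) (by positivity)
  have rt : ∀ m, ∀ k < 2 ^ m, g (x m k) ≤ 2 / 2 ^ m := fun m k hk => by
    have := gb m (x m k)
    rw [Pz, Finset.prod_eq_zero (Finset.mem_range.2 hk) (sub_self _)] at this
    simpa using (abs_le.1 this).1
  have nr : ∀ z : ℂ, z.im ≠ 0 → Continuous fun y : ℝ => Real.log ‖z - y‖ := fun z hz =>
    Continuous.log (by fun_prop) fun y => norm_ne_zero_iff.2 fun e => hz (by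
      simpa using congrArg Complex.im e)
  have pot : ∀ z : ℂ, z.im ≠ 0 → ∫ y : ℝ, Real.log ‖z - y‖ ∂μ = g z := fun z hz => by
    obtain ⟨ε, ε0, hε⟩ := g1 z hz
    refine tendsto_nhds_unique (ht _ (nr z hz)) ?_
    have a := ((gl z).comp hs.tendsto_atTop)
    refine tendsto_of_tendsto_of_tendsto_of_le_of_le (by
      simpa using a.add ((t2 (Real.log (min 1 ε))).comp hs.tendsto_atTop)) a
      (fun m => ?_) fun m => ?_
    all_goals
      have e : ∑ k ∈ Finset.range (2 ^ s m), Real.log ‖z - x (s m) k‖ = Real.log ‖Pz x (s m) z‖ := by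
        rw [Pz, norm_prod, Real.log_prod fun k _ => norm_ne_zero_iff.2 fun e => hz (by
          simpa using congrArg Complex.im e)]
      have p := ε0.trans_le (hε (s m))
      simp only [Function.comp, e]
    · rw [← add_div, ← Real.log_mul (by positivity) (by positivity)]
      gcongr
      rcases le_total 1 ‖Pz x (s m) z‖ with k | k
      · rw [max_eq_right k]; nlinarith [min_le_left 1 ε]
      · rw [max_eq_left k, one_mul]; exact (min_le_right _ _).trans (hε _)
    · gcongr; exact le_max_right _ _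
  set K := Icc (-3 : ℝ) 3 ∩ {t : ℝ | g t = 0} with hK
  have gr : Continuous fun t : ℝ => g t := gc.comp Complex.continuous_ofReal
  have mK : μ Kᶜ = 0 := by
    have : ∫ y : ℝ, g y ∂μ ≤ 0 := by
      refine le_of_tendsto_of_tendsto' (ht _ gr) ((t2 2).comp hs.tendsto_atTop) fun m => ?_
      rw [div_le_iff₀ (by positivity)]
      exact (Finset.sum_le_card_nsmul _ _ _ fun k hk => rt _ k (Finset.mem_range.1 hk)).trans
        (by simp [mul_comm])
    have z := (integral_eq_zero_iff_of_nonneg (fun y : ℝ => g0 y) (int_cont isCompact_Icc m3 gr)).1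
      (le_antisymm this (integral_nonneg fun y => g0 y))
    exact (ae.and z).mono fun y hy => hy
  have aK : ∀ᵐ y ∂μ, y ∈ K := mK
  have F : ∀ t : ℝ, 0 < g t → Tendsto (fun m => (ct x (s m) t : ℝ) / 2 ^ s m) atTop
      (𝓝 (μ.real (Iic t))) := by
    intro t h0
    obtain ⟨η, η0, hη⟩ := (nhds_basis_Icc_pos t).mem_iff.1
      (gr.continuousAt.eventually (lt_mem_nhds (half_lt_self h0)))
    have a := ht (fun y => max 0 (min 1 ((t + η - y) / η))) (by fun_prop)
    have v : ∀ y : ℝ, g y ≤ g t / 2 → max 0 (min 1 ((t + η - y) / η)) = if y ≤ t then 1 else 0 := by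
      intro y hy
      split_ifs with k
      · rw [min_eq_left (by rw [le_div_iff₀ η0]; linarith)]; simp
      · have : t + η < y := by
          by_contra k'
          exact absurd (hη ⟨by linarith, by linarith⟩) (not_lt.2 hy)
        exact max_eq_left (min_le_of_right_le (div_nonpos_of_nonpos_of_nonneg (by linarith) η0.le))
    rw [integral_congr_ae (g := (Iic t).indicator 1) (aK.mono fun y hy => by
      simp only [v y (by rw [hy.2]; linarith), indicator, mem_Iic, Pi.one_apply]),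
      integral_indicator_one measurableSet_Iic] at a
    refine a.congr' ?_
    filter_upwards [((t2 2).comp hs.tendsto_atTop).eventually (gt_mem_nhds (half_pos h0))] with m hm
    rw [ct, Finset.card_filter, Finset.sum_congr rfl fun k hk =>
      v _ ((rt _ k (Finset.mem_range.1 hk)).trans hm.le)]
    simp
  have ri := real_int m3 gc pot
  refine ⟨μ, g, c, K, hμ, isCompact_Icc.inter_right (isClosed_eq gr continuous_const),
    inter_subset_left, mK, gc, fun t ht => ht.2, fun z => ?_, fun t ht => ?_, fun t ht => ?_,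
    fun j j0 => ⟨fun h => (g3 j j0).1.ne' h.2, ?_⟩, fun a d b ha hb a1 b1 hd ad db e => ?_⟩
  · by_cases hz : z.im = 0
    · obtain ⟨t, rfl⟩ : ∃ t : ℝ, z = t := ⟨z.re, Complex.ext rfl hz⟩
      simpa only [← Complex.ofReal_sub, Complex.norm_real, Real.norm_eq_abs] using (ri t).2
    · exact ⟨int_cont isCompact_Icc m3 (nr z hz), pot z hz⟩
  · rw [real_pot m3 gc pot t (by linarith [abs_le.2 ht.1]), ht.2, sub_zero]
  · rcases lt_or_ge t (-3) with k | k
    · refine Or.inr ⟨0, ?_⟩
      rw [Measure.real, measure_mono_null (s := Iic t) (t := (Icc (-3) 3)ᶜ) (fun y hy h => by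
        linarith [h.1, mem_Iic.1 hy]) m3]; simp
    rcases lt_or_ge 3 t with k' | k'
    · left
      rw [Measure.real, (prob_compl_eq_zero_iff measurableSet_Iic).1 (measure_mono_null
        (compl_subset_compl.2 fun y (h : y ∈ Icc _ _) => h.2.trans k'.le) m3)]; simp
    have h0 : 0 < g t := (g0 t).lt_of_ne' fun e => ht ⟨⟨k, k'⟩, e⟩
    have cl : IsClosed (insert (1 : ℝ) (range fun j : ℕ => 1 - 1 / 2 ^ j)) :=
      (Tendsto.isCompact_insert_range (by simpa using (t2 1).const_sub 1)).isClosed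
    refine (cl.mem_of_tendsto (F t h0) ?_).imp_right fun ⟨j, e⟩ => ⟨j, e.symm⟩
    filter_upwards [(((gl t).sub (t2 1)).comp hs.tendsto_atTop).eventually
      (lt_mem_nhds (show 0 < g t - 0 by linarith))] with m hm
    have : 2 < ‖Pz x (s m) t‖ := by
      simp only [Function.comp, ← sub_div] at hm
      have := (Real.lt_log_iff_exp_lt (one_pos.trans_le (le_max_left _ _))).1
        (sub_pos.1 ((div_pos_iff_of_pos_right (by positivity)).1 hm))
      have b := Real.exp_one_gt_d9
      rcases lt_max_iff.1 this with k | k <;> linarith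
    rcases g2 _ _ this with e | ⟨j, j1, e⟩
    · left; rw [e]; simp
    · refine Or.inr ⟨j, ?_⟩
      have e' : (ct x (s m) t : ℝ) + 2 ^ (s m - j) = 2 ^ s m := by exact_mod_cast e
      rw [← Nat.sub_add_cancel j1, pow_add, Nat.sub_add_cancel j1] at e' ⊢
      simp only
      field_simp
      linarith
  · refine tendsto_nhds_unique (F _ (g3 j j0).1) (tendsto_const_nhds.congr' ?_)
    filter_upwards [hs.tendsto_atTop.eventually_ge_atTop j] with m j1
    have e' : (ct x (s m) (c j) : ℝ) + 2 ^ (s m - j) = 2 ^ s m := by exact_mod_cast (g3 j j0).2 _ j1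
    rw [← Nat.sub_add_cancel j1, pow_add, Nat.sub_add_cancel j1] at e' ⊢
    field_simp
    linarith
  · have ab := ad.trans db
    have z : μ (Ioc a b) = 0 := by
      rw [← Iic_sdiff_Iic, measure_sdiff (Iic_subset_Iic.2 ab.le) nullMeasurableSet_Iic
        (measure_ne_top _ _), (ENNReal.toReal_eq_toReal_iff' (measure_ne_top _ _)
        (measure_ne_top _ _)).1 e, tsub_self]
    have ga : 0 < g a := (g0 a).lt_of_ne' fun e => a1 ⟨ha, e⟩
    have gb' : 0 < g b := (g0 b).lt_of_ne' fun e => b1 ⟨hb, e⟩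
    set θ := (b - d) / (b - a) with hθ
    have θ0 : 0 < θ := div_pos (by linarith) (by linarith)
    have θ1 : θ < 1 := (div_lt_one (by linarith)).2 (by linarith)
    have dθ : d = θ * a + (1 - θ) * b := by
      have : b - a ≠ 0 := by linarith
      rw [hθ]; field_simp; ring
    have := integral_mono_ae (((ri a).2.1.const_mul θ).add ((ri b).2.1.const_mul (1 - θ)))
      (ri d).2.1 (by
        filter_upwards [measure_eq_zero_iff_ae_notMem.1 z, ae_ne (ri a).1] with y hy hy'
        have e : |d - y| = θ * |a - y| + (1 - θ) * |b - y| ∧ 0 < |a - y| ∧ 0 < |b - y| := by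
          rcases lt_or_ge a y with k | k
          · have : b < y := not_le.1 fun k' => hy ⟨k, k'⟩
            rw [abs_of_neg (by linarith), abs_of_neg (by linarith), abs_of_neg (by linarith)]
            exact ⟨by rw [dθ]; ring, by linarith, by linarith⟩
          · have := k.lt_of_ne hy'
            rw [abs_of_pos (by linarith), abs_of_pos (by linarith), abs_of_pos (by linarith)]
            exact ⟨by rw [dθ]; ring, by linarith, by linarith⟩
        rw [e.1]
        exact strictConcaveOn_log_Ioi.concaveOn.2 e.2.1 e.2.2 θ0.le (by linarith) (by ring))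
    simp only [Pi.add_apply] at this
    rw [integral_add ((ri a).2.1.const_mul θ) ((ri b).2.1.const_mul (1 - θ)), integral_const_mul,
      integral_const_mul, (ri a).2.2, (ri b).2.2, (ri d).2.2, hd.2] at this
    nlinarith

end Pool.Agent.H.MP_25eb51_an
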