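import Pool.Agent.H.MP_25eb51_an.D

namespace Pool.Agent.H.MP_25eb51_an

open Polynomial MeasureTheory Set Filter Topology

structure Cfg (K : Set ℝ) (F : ℝ → ℝ) (c d : ℕ → ℝ) : Prop where
  sub : K ⊆ Icc (-3) 3
  mono : Monotone F
  le : ∀ t, F t ≤ 1
  val : ∀ t ∉ K, F t = 1 ∨ ∃ j : ℕ, F t = 1 - 1 / 2 ^ j
  cv : ∀ j, c j ∉ K ∧ F (c j) = 1 - 1 / 2 ^ (j + 1)
  dv : ∀ j, d j ∈ K ∧ c j < d j ∧ d j < c (j + 1)
  sep : ∀ a d b, a ∈ Icc (-3 : ℝ) 3 → b ∈ Icc (-3 : ℝ) 3 → a ∉ K → b ∉ K → d ∈ K → a < d → d < b →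
    F a ≠ F b

variable {K : Set ℝ} {F : ℝ → ℝ} {c d : ℕ → ℝ}

lemma Cfg.ns1 (H : Cfg K F c d) {γ η : ℝ} (hγ : Tendsto c atTop (𝓝 γ)) (hη : 0 < η) {q : ℝ → ℝ}
    (hq : Continuous q) (hm : StrictMonoOn q (Ioo (γ - η) γ))
    (sat : ∀ x ∈ K, ∀ y, q y = q x → y ∈ K)
    (oth : ∀ x ∈ K, x ∈ Ioo (γ - η) γ → ∃ y ≠ x, q y = q x) : False := by
  have cm : StrictMono c := strictMono_nat_of_lt_succ fun j => (H.dv j).2.1.trans (H.dv j).2.2
  have dm : StrictMono d := strictMono_nat_of_lt_succ fun j => (H.dv j).2.2.trans (H.dv _).2.1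
  have cγ : ∀ j, c j < γ := fun j => (cm (Nat.lt_succ_self j)).trans_le (cm.monotone.ge_of_tendsto hγ _)
  obtain ⟨J, hJ⟩ := (hγ.eventually (lt_mem_nhds (show γ - η < γ by linarith))).exists
  have ci : ∀ j, c (J + j) ∈ Ioo (γ - η) γ := fun j => ⟨hJ.trans_le (cm.monotone (by omega)), cγ _⟩
  have di : ∀ j, d (J + j) ∈ Ioo (γ - η) γ := fun j =>
    ⟨(ci j).1.trans (H.dv _).2.1, (H.dv _).2.2.trans (cγ _)⟩
  choose e e1 e2 using fun j => oth _ (H.dv (J + j)).1 (di j)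
  have eK : ∀ j, e j ∈ K := fun j => sat _ (H.dv _).1 _ (e2 j)
  obtain ⟨O, O1, O2, O3⟩ : ∃ O : Set ℝ, O.OrdConnected ∧ (∃ᶠ j in atTop, e j ∈ O) ∧
      ∀ t ∈ O, t ∉ K → F t ∈ insert (1 : ℝ) ((fun j : ℕ => 1 - 1 / 2 ^ j) '' Iic (J + 1)) := by
    have : ∃ᶠ j in atTop, e j ∈ Iic (γ - η) ∨ e j ∈ Ici γ := Frequently.of_forall fun j => by
      by_contra k
      simp only [mem_Iic, mem_Ici, not_or, not_le] at k
      exact e1 j (hm.injOn k (di j) (e2 j))
    rcases frequently_or_distrib.1 this with h | h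
    · refine ⟨_, ordConnected_Iic, h, fun t ht hK => (H.val t hK).imp_right fun ⟨j, hj⟩ =>
        ⟨j, ?_, hj.symm⟩⟩
      have := H.mono (ht.trans hJ.le)
      rw [hj, (H.cv J).2, sub_le_sub_iff_left, one_div_le_one_div (by positivity) (by positivity),
        pow_le_pow_iff_right₀ (by norm_num)] at this
      exact this
    · refine ⟨_, ordConnected_Ici, h, fun t ht hK => Or.inl (le_antisymm (H.le t) ?_)⟩
      have t2 : Tendsto (fun m : ℕ => (1 : ℝ) / 2 ^ (m + 1)) atTop (𝓝 0) :=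
        (tendsto_const_nhds.div_atTop (tendsto_pow_atTop_atTop_of_one_lt (by norm_num))).comp
          (tendsto_add_atTop_nat 1)
      simpa using le_of_tendsto' (t2.const_sub 1) fun j => (H.cv j).2 ▸ H.mono ((cγ j).le.trans ht)
  obtain ⟨φ, φ1, φ2⟩ := extraction_of_frequently_atTop O2
  have o1 : ∀ n, q (d (J + φ n)) < q (c (J + (φ n + 1))) := fun n => hm (di _) (ci _) (H.dv _).2.2
  have o2 : ∀ n, q (c (J + (φ n + 1))) < q (d (J + φ (n + 1))) := fun n => hm (ci _) (di _)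
    ((H.dv _).2.1.trans_le (dm.monotone (by have := φ1 (Nat.lt_succ_self n); simp at this; omega)))
  have ex : ∀ n, ∃ a ∈ uIcc (e (φ n)) (e (φ (n + 1))), q a = q (c (J + (φ n + 1))) := fun n =>
    intermediate_value_uIcc hq.continuousOn (by
      rw [e2, e2]; exact mem_uIcc_of_le (o1 n).le (o2 n).le)
  choose a a1 a2 using ex
  have aK : ∀ n, a n ∉ K := fun n h => (H.cv _).1 (sat _ h _ (a2 n).symm)
  have aI : ∀ n, a n ∈ Icc (-3 : ℝ) 3 := fun n =>
    ordConnected_Icc.uIcc_subset (H.sub (eK _)) (H.sub (eK _)) (a1 n)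
  have ne : ∀ n n', n < n' → F (a n) ≠ F (a n') := fun n n' h => by
    have k : q (d (J + φ (n + 1))) < q (c (J + (φ n' + 1))) :=
      (hm.monotoneOn (di _) (di _) (dm.monotone (by have := φ1.monotone (show n + 1 ≤ n' from h)
                                                    omega))).trans_lt (o1 n')
    obtain ⟨t, t1, t2⟩ := intermediate_value_uIcc (a := a n) (b := a n') hq.continuousOn (by
      rw [a2, a2]; exact mem_uIcc_of_le (o2 n).le k.le)
    have tK := sat _ (H.dv _).1 _ t2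
    have n1 : t ≠ a n := fun e => aK n (e ▸ tK)
    have n2 : t ≠ a n' := fun e => aK n' (e ▸ tK)
    rcases mem_uIcc.1 t1 with u | u
    · exact H.sep _ t _ (aI n) (aI n') (aK n) (aK n') tK (u.1.lt_of_ne' n1) (u.2.lt_of_ne n2)
    · exact (H.sep _ t _ (aI n') (aI n) (aK n') (aK n) tK (u.1.lt_of_ne' n2) (u.2.lt_of_ne n1)).symm
  refine infinite_of_injective_forall_mem (f := fun n => F (a n)) (fun n n' h => ?_)
    (fun n => O3 _ (O1.uIcc_subset (φ2 _) (φ2 _) (a1 n)) (aK n))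
    (((finite_Iic _).image _).insert _)
  rcases lt_trichotomy n n' with k | k | k
  · exact absurd h (ne _ _ k)
  · exact k
  · exact absurd h (ne _ _ k).symm

lemma Cfg.ns2 (H : Cfg K F c d) {p : ℝ[X]} (hp : p.derivative ≠ 0)
    (sat : ∀ x ∈ K, ∀ y, p.eval y = p.eval x → y ∈ K)
    (oth : ∀ x ∈ K, p.derivative.eval x ≠ 0 → ∃ y ≠ x, p.eval y = p.eval x) : False := by
  have cm : StrictMono c := strictMono_nat_of_lt_succ fun j => (H.dv j).2.1.trans (H.dv j).2.2
  have hγ := tendsto_atTop_ciSup cm.monotone ⟨3, by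
    rintro _ ⟨j, rfl⟩; exact (H.dv j).2.1.le.trans (H.sub (H.dv j).1).2⟩
  set γ := ⨆ j, c j
  have := ((finite_setOfPred_isRoot hp).sdiff (t := {γ})).isClosed.isOpen_compl.mem_nhds
    (show γ ∈ _ by simp)
  obtain ⟨η, η0, hη⟩ := (nhds_basis_Icc_pos γ).mem_iff.1 this
  have nz : ∀ t ∈ Ioo (γ - η) γ, p.derivative.eval t ≠ 0 := fun t ht h =>
    hη ⟨ht.1.le, by linarith [ht.2]⟩ ⟨h, ht.2.ne⟩
  have inj : InjOn p.eval (Ioo (γ - η) γ) := fun a ha b hb h => by
    by_contra k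
    wlog l : a < b generalizing a b
    · exact this b hb a ha h.symm (Ne.symm k) ((not_lt.1 l).lt_of_ne' k)
    obtain ⟨t, t1, t2⟩ := exists_hasDerivAt_eq_zero l p.continuous.continuousOn h
      fun x _ => p.hasDerivAt x
    exact nz t ⟨ha.1.trans t1.1, t1.2.trans hb.2⟩ t2
  rcases p.continuous.continuousOn.strictMonoOn_of_injOn_Ioo (by linarith) inj with h | h
  · exact H.ns1 hγ η0 p.continuous h sat fun x hx hi => oth x hx (nz x hi)
  · exact H.ns1 hγ η0 p.continuous.neg h.neg (fun x hx y e => sat x hx y (neg_injective e))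
      fun x hx hi => (oth x hx (nz x hi)).imp fun y hy => ⟨hy.1, congrArg Neg.neg hy.2⟩

lemma Cfg.ns3 (H : Cfg K F c d) {f : ℂ[X]} (hf : 2 ≤ f.natDegree)
    (sat : ∀ x ∈ K, ∀ z, f.eval z = f.eval (x : ℂ) → z ∈ Complex.ofReal '' K) : False := by
  set g := f - C (f.eval (d 0 : ℂ)) with hg
  have gd : g.natDegree = f.natDegree := natDegree_sub_C
  have g0 : g ≠ 0 := fun h => by rw [h] at gd; simp at gd; omega
  have a0 := leadingCoeff_ne_zero.2 g0
  obtain ⟨p, hp⟩ : (g.roots.map fun r => X - C r).prod ∈ lifts (algebraMap ℝ ℂ) := by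
    refine Subsemiring.multiset_prod_mem _ _ fun u hu => ?_
    obtain ⟨r, hr, rfl⟩ := Multiset.mem_map.1 hu
    obtain ⟨t, -, rfl⟩ := sat _ (H.dv 0).1 r (by simpa [hg, sub_eq_zero] using isRoot_of_mem_roots hr)
    exact ⟨X - C t, by simp⟩
  have e : f = C g.leadingCoeff * p.map (algebraMap ℝ ℂ) + C (f.eval (d 0 : ℂ)) := by
    have := (IsAlgClosed.splits g).eq_prod_roots
    rw [← hp] at this
    exact eq_add_of_sub_eq this
  set a := g.leadingCoeff
  set b := f.eval (d 0 : ℂ)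
  have mp : ∀ (r : ℝ[X]) (x : ℝ), (r.map (algebraMap ℝ ℂ)).eval (x : ℂ) = (r.eval x : ℝ) :=
    fun r x => eval_map_algebraMap r _ |>.trans (aeval_algebraMap_apply_eq_algebraMap_eval x r)
  have ev : ∀ x y : ℝ, f.eval (y : ℂ) = f.eval (x : ℂ) ↔ p.eval y = p.eval x := fun x y => by
    rw [e]; simp [mp, a0]
  have ed : f.derivative = C a * p.derivative.map (algebraMap ℝ ℂ) := by rw [e]; simp
  refine H.ns2 (p := p) (fun h => ?_) (fun x hx y h => ?_) fun x hx h => ?_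
  · rw [h, Polynomial.map_zero, mul_zero, derivative_eq_zero] at ed; omega
  · obtain ⟨t, ht, k⟩ := sat x hx y ((ev x y).2 h)
    exact Complex.ofReal_injective k ▸ ht
  · obtain ⟨q, hq⟩ := dvd_iff_isRoot.2 (show (f - C (f.eval (x : ℂ))).IsRoot x by simp)
    have q0 : q ≠ 0 := by
      rintro rfl
      have := congrArg natDegree hq
      rw [natDegree_sub_C] at this; simp at this; omega
    have qd := congrArg natDegree hq
    rw [natDegree_sub_C, natDegree_mul (X_sub_C_ne_zero _) q0, natDegree_X_sub_C] at qd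
    obtain ⟨z, hz⟩ := IsAlgClosed.exists_root q (by
      rw [degree_eq_natDegree q0]; exact_mod_cast (by omega : q.natDegree ≠ 0))
    have z1 : f.eval z = f.eval (x : ℂ) := by
      simpa [hz.eq_zero, sub_eq_zero] using congrArg (eval z) hq
    obtain ⟨y, -, rfl⟩ := sat x hx z z1
    refine ⟨y, ?_, (ev x y).1 z1⟩
    rintro rfl
    have := congrArg (fun r => eval (y : ℂ) (derivative r)) hq
    simp [hz.eq_zero, ed, mp, a0, h] at this

lemma core {u : ℝ → ℝ} (hu : Continuous u) (hc : ∀ y, IsLocalMax u y → 1 ≤ |u y|)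
    (ht : Tendsto (fun y => |u y|) atTop atTop) {x a b : ℝ} (h1 : u x ≤ 1) (hx : ∀ y, x < y → u y < u x)
    (ab : a < b) (xa : x < a) (ua : u a = 0) (ub : u b = 0) : False := by
  obtain ⟨t, t1, t2⟩ := ((ht.eventually_gt_atTop 1).and (eventually_gt_atTop b)).exists
  have t3 : u t < 0 := by
    have := hx t (by linarith)
    rcases lt_abs.1 t1 with k | k <;> linarith
  obtain ⟨s, s1, s2⟩ := isCompact_Icc.exists_isMaxOn (nonempty_Icc.2 (ab.trans t2).le)
    hu.continuousOn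
  have s3 : u a ≤ u s := s2 (left_mem_Icc.2 (ab.trans t2).le)
  rcases s3.eq_or_lt with k | k
  · have : IsMaxOn u (Icc a t) b := fun y hy => (show u y ≤ u s from s2 hy).trans_eq (show u s = u b by rw [← k, ua, ub])
    have := hc b (this.isLocalMax (Icc_mem_nhds ab t2))
    rw [ub] at this; norm_num at this
  · have := hc s (s2.isLocalMax (Icc_mem_nhds (s1.1.lt_of_ne fun e => k.ne (e ▸ rfl))
      (s1.2.lt_of_ne fun e => by rw [e] at k; linarith)))
    rw [abs_of_pos (by linarith)] at this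
    linarith [hx s (xa.trans_le s1.1)]

lemma core2 {u : ℝ → ℝ} (hu : Continuous u) (hc : ∀ y, IsLocalMax u y → 1 ≤ |u y|)
    (ht : Tendsto (fun y => |u y|) atTop atTop) (ht' : Tendsto (fun y => |u y|) atBot atTop)
    {x a b : ℝ} (h0 : 0 < u x) (h1 : u x ≤ 1) (hm : ¬ IsLocalMax u x) (hx : ∀ y ≠ x, u y ≠ u x)
    (ab : a < b) (ua : u a = 0) (ub : u b = 0) : False := by
  have sd : ∀ y z, x ∉ uIcc y z → u y < u x → u z < u x := fun y z h k => by
    by_contra l
    obtain ⟨t, t1, t2⟩ := intermediate_value_uIcc (a := y) (b := z) hu.continuousOn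
      (mem_uIcc_of_le k.le (not_lt.1 l))
    exact hx t (fun e => h (e ▸ t1)) t2
  have R : ∀ r, x < r → u r = 0 → ∀ y, x < y → u y < u x := fun r h k y hy =>
    sd r y (notMem_uIcc_of_lt h hy) (by linarith)
  have L : ∀ r, r < x → u r = 0 → ∀ y, y < x → u y < u x := fun r h k y hy =>
    sd r y (notMem_uIcc_of_gt h hy) (by linarith)
  rcases lt_trichotomy x a with k | rfl | k
  · exact core hu hc ht h1 (R a k ua) ab k ua ub
  · linarith
  rcases lt_trichotomy x b with l | rfl | l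
  · refine hm (Eventually.of_forall fun y => ?_)
    rcases lt_trichotomy x y with m | rfl | m
    exacts [(R b l ub y m).le, le_rfl, (L a k ua y m).le]
  · linarith
  · refine core (u := fun y => u (-y)) (x := -x) (a := -b) (b := -a) (by fun_prop) (fun y hy => hc _ ?_)
      (ht'.comp tendsto_neg_atTop_atBot) (by simpa) (fun y hy => by
        simpa using L a k ua (-y) (by linarith)) (by linarith) (by linarith) (by simpa) (by simpa)
    have := IsLocalMax.comp_continuous (f := fun y => u (-y)) (g := Neg.neg) (b := -y)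
      (by simpa) continuous_neg.continuousAt
    simpa [Function.comp_def] using this

lemma other {T : ℝ[X]} (hd : 2 ≤ T.natDegree) (hr : T.roots.toFinset.card = T.natDegree)
    (hc : ∀ y, T.derivative.eval y = 0 → 1 ≤ |T.eval y|) {x : ℝ} (h1 : |T.eval x| ≤ 1)
    (h2 : T.derivative.eval x ≠ 0) : ∃ y ≠ x, T.eval y = T.eval x := by
  by_contra k
  push Not at k
  obtain ⟨a, b, ab, ua, ub⟩ : ∃ a b, a < b ∧ T.eval a = 0 ∧ T.eval b = 0 := by
    obtain ⟨a, ha, b, hb, h⟩ := Finset.one_lt_card.1 (show 1 < T.roots.toFinset.card by omega)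
    have ua := (isRoot_of_mem_roots (Multiset.mem_toFinset.1 ha)).eq_zero
    have ub := (isRoot_of_mem_roots (Multiset.mem_toFinset.1 hb)).eq_zero
    exact (lt_or_gt_of_ne h).elim (fun l => ⟨a, b, l, ua, ub⟩) fun l => ⟨b, a, l, ub, ua⟩
  have dp : 0 < T.degree := natDegree_pos_iff_degree_pos.1 (by omega)
  have t1 := T.abs_tendsto_atTop dp
  have t2 := T.abs_tendsto_atBot dp
  rcases lt_trichotomy (T.eval x) 0 with l | l | l
  · refine core2 (u := fun y => -T.eval y) (x := x) T.continuous.neg (fun y hy => ?_) (by simpa)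
      (by simpa) (by linarith) (by linarith [(abs_le.1 h1).1]) (fun hy => h2 ?_)
      (fun y hy e => k y hy (neg_injective e)) ab (by simpa) (by simpa)
    · rw [abs_neg]; exact hc y (neg_eq_zero.1 (hy.hasDerivAt_eq_zero (T.hasDerivAt y).neg))
    · exact neg_eq_zero.1 (hy.hasDerivAt_eq_zero (T.hasDerivAt x).neg)
  · by_cases e : a = x
    · exact k b (e ▸ ab.ne') (ub.trans l.symm)
    · exact k a e (ua.trans l.symm)
  · exact core2 T.continuous (fun y hy => hc y (hy.hasDerivAt_eq_zero (T.hasDerivAt y))) t1 t2 l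
      (abs_le.1 h1).2 (fun hy => h2 (hy.hasDerivAt_eq_zero (T.hasDerivAt x))) k ab ua ub

theorem main : ∃ (K : Set ℝ) (μ : Measure ℝ) (g : ℂ → ℝ), IsProbabilityMeasure μ ∧
    IsCompact K ∧ K ⊆ Icc (-3) 3 ∧ μ Kᶜ = 0 ∧ Continuous g ∧ (∀ t ∈ K, g t = 0) ∧
    (∀ z : ℂ, Integrable (fun y : ℝ => Real.log ‖z - y‖) μ ∧ ∫ y : ℝ, Real.log ‖z - y‖ ∂μ = g z) ∧
    (∀ t ∈ K, MP_7f7d18_an.U 7 μ t = ENNReal.ofReal (Real.log 7)) ∧
    (∀ t ∉ K, ∃ r : ℚ, μ.real (Iic t) = r) ∧ (∀ f : ℂ[X], 2 ≤ f.natDegree →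
      ¬ ∀ x ∈ K, ∀ z, f.eval z = f.eval (x : ℂ) → z ∈ Complex.ofReal '' K) ∧
    ∀ T : ℝ[X], 2 ≤ T.natDegree → T.roots.toFinset.card = T.natDegree →
      (∀ y, T.derivative.eval y = 0 → 1 ≤ |T.eval y|) → (∀ x ∈ K, |T.eval x| ≤ 1) →
      ¬ ∀ x ∈ K, ∀ y, T.eval y = T.eval x → y ∈ K := by
  obtain ⟨μ, g, c, K, h1, h2, h3, h4, h5, h6, h7, h8, h9, h10, h11⟩ := meas
  have mo : Monotone fun t => μ.real (Iic t) := fun a b h => measureReal_mono (Iic_subset_Iic.2 h)
  have ex : ∀ j, ∃ d, d ∈ K ∧ c (j + 1) < d ∧ d < c (j + 1 + 1) := fun j => by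
    by_contra k
    have : μ.real (Iic (c (j + 1 + 1))) ≤ μ.real (Iic (c (j + 1)) ∪ Kᶜ) := measureReal_mono fun t ht => by
      by_contra l
      simp only [mem_union, mem_Iic, mem_compl_iff, not_or, not_le, not_not] at l
      exact k ⟨t, l.2, l.1, (mem_Iic.1 ht).lt_of_ne fun e => (h10 _ (by omega)).1 (e ▸ l.2)⟩
    have := this.trans (measureReal_union_le _ _)
    rw [(h10 _ (by omega)).2, (h10 _ (by omega)).2, Measure.real, h4, pow_succ _ (j + 1),
      ← div_div] at this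
    have : (0 : ℝ) < 1 / 2 ^ (j + 1) := by positivity
    simp only [ENNReal.toReal_zero] at *
    linarith
  choose d hd using ex
  have H : Cfg K (fun t => μ.real (Iic t)) (fun j => c (j + 1)) d :=
    ⟨h3, mo, fun t => measureReal_le_one, h9, fun j => h10 _ (by omega), hd, h11⟩
  refine ⟨K, μ, g, h1, h2, h3, h4, h5, h6, h7, h8, fun t ht => ?_, fun f hf => H.ns3 hf,
    fun T a1 a2 a3 a4 a5 => H.ns2 (fun h => by rw [derivative_eq_zero] at h; omega) a5
      fun x hx => other a1 a2 a3 (a4 x hx)⟩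
  rcases h9 t ht with e | ⟨j, e⟩
  · exact ⟨1, by simp [e]⟩
  · exact ⟨1 - 1 / 2 ^ j, by simp [e]⟩

end Pool.Agent.H.MP_25eb51_an
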